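import Pool.Agent.D0H61.AB.Stm

/-! Project AB (helper61), module FAM (helper81, second seat): `S_CHEB → S_FAM`. -/

set_option autoImplicit false

namespace Pool.Agent.D0H81.AB

open Finset Pool.Agent.D0H61.AB

theorem mem_PJ {j p : ℕ} (h : p ∈ PJ j) :
    p.Prime ∧ Real.exp ((j : ℝ) - 1) < p ∧ (p : ℝ) ≤ Real.exp j := by
  classical
  unfold PJ at h
  rw [mem_filter, mem_Icc] at h
  exact ⟨h.2.1, h.2.2, (Nat.le_floor_iff (Real.exp_pos _).le).mp h.1.2⟩

theorem PJ_disj {i j : ℕ} (h : i < j) : Disjoint (PJ i) (PJ j) := by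
  rw [Finset.disjoint_left]
  intro p hp hq
  obtain ⟨-, -, h1⟩ := mem_PJ hp
  obtain ⟨-, h2, -⟩ := mem_PJ hq
  have h3 : ((i : ℝ)) ≤ (j : ℝ) - 1 := by
    have : (i : ℝ) + 1 ≤ j := by exact_mod_cast h
    linarith
  have := Real.exp_le_exp.mpr h3
  linarith

theorem comb (l m E : ℕ) (hE : 1 ≤ E) (A : Fin l → Finset ℕ) (hA : ∀ j, ∀ p ∈ A j, p.Prime)
    (hd : ∀ i j, i ≠ j → Disjoint (A i) (A j)) :
    ∃ B : Finset ℕ, B.card = (∏ j, (A j).card.choose m) * (E + 1) ^ (l * m) ∧
      ∀ b ∈ B, b ≠ 0 ∧ ∃ g : Fin l → Finset ℕ, (∀ j, g j ⊆ A j) ∧ (∀ j, (g j).card = m) ∧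
        b.primeFactors = univ.biUnion g ∧ (univ.biUnion g).card = l * m ∧
        rad b = ∏ j, ∏ p ∈ g j, p ∧
        ∀ p ∈ b.primeFactors, E ≤ b.factorization p ∧ b.factorization p ≤ 2 * E := by
  classical
  set G : Finset (Fin l → Finset ℕ) := Fintype.piFinset fun j => powersetCard m (A j) with hG
  set S : Finset (ℕ →₀ ℕ) :=
    G.biUnion fun g => (univ.biUnion g).finsupp fun _ => Icc E (2 * E) with hS
  have hGm : ∀ g ∈ G, ∀ j, g j ⊆ A j ∧ (g j).card = m := by
    intro g hg j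
    have := Fintype.mem_piFinset.mp hg j
    exact mem_powersetCard.mp this
  have hfs : ∀ g ∈ G, ∀ f ∈ ((univ.biUnion g).finsupp fun _ => Icc E (2 * E)),
      f.support = univ.biUnion g := by
    intro g hg f hf
    rw [mem_finsupp_iff] at hf
    refine Subset.antisymm hf.1 ?_
    intro p hp
    have := mem_Icc.mp (hf.2 p hp)
    rw [Finsupp.mem_support_iff]
    omega
  have hprime : ∀ g ∈ G, ∀ p ∈ univ.biUnion g, p.Prime := by
    intro g hg p hp
    obtain ⟨j, -, hj⟩ := mem_biUnion.mp hp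
    exact hA j p ((hGm g hg j).1 hj)
  have hUinj : ∀ g ∈ G, ∀ g' ∈ G, univ.biUnion g = univ.biUnion g' → g = g' := by
    have key : ∀ g ∈ G, ∀ j, g j = (univ.biUnion g) ∩ A j := by
      intro g hg j
      ext p
      constructor
      · intro hp
        exact mem_inter.mpr ⟨mem_biUnion.mpr ⟨j, mem_univ _, hp⟩, (hGm g hg j).1 hp⟩
      · intro hp
        obtain ⟨h1, h2⟩ := mem_inter.mp hp
        obtain ⟨i, -, hi⟩ := mem_biUnion.mp h1
        by_cases hij : i = j
        · subst hij; exact hi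
        · exact absurd h2 (Finset.disjoint_left.mp (hd i j hij) ((hGm g hg i).1 hi))
    intro g hg g' hg' h
    funext j
    rw [key g hg j, key g' hg' j, h]
  have hpd : ∀ g ∈ G, (Set.univ : Set (Fin l)).PairwiseDisjoint g := by
    intro g hg i _ j _ hij
    exact disjoint_of_subset_left (hGm g hg i).1
      (disjoint_of_subset_right (hGm g hg j).1 (hd i j hij))
  have hcardU : ∀ g ∈ G, (univ.biUnion g).card = l * m := by
    intro g hg
    rw [card_biUnion]
    · rw [sum_congr rfl fun j _ => (hGm g hg j).2]; simp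
    · intro i _ j _ hij
      exact hpd g hg (Set.mem_univ _) (Set.mem_univ _) hij
  have hScard : S.card = (∏ j, (A j).card.choose m) * (E + 1) ^ (l * m) := by
    rw [hS, card_biUnion]
    · rw [sum_congr rfl (g := fun _ => (E + 1) ^ (l * m))]
      · rw [sum_const, hG, Fintype.card_piFinset]
        simp [card_powersetCard]
      · intro g hg
        rw [card_finsupp, prod_const, hcardU g hg, Nat.card_Icc]
        congr 1; omega
    · intro g hg g' hg' hne
      refine Finset.disjoint_left.mpr ?_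
      intro f hf hf'
      exact hne (hUinj g hg g' hg' ((hfs g hg f hf).symm.trans (hfs g' hg' f hf')))
  have hSp : ∀ f ∈ S, ∀ p ∈ f.support, p.Prime := by
    intro f hf p hp
    obtain ⟨g, hg, hfg⟩ := mem_biUnion.mp hf
    rw [hfs g hg f hfg] at hp
    exact hprime g hg p hp
  have hfact : ∀ f ∈ S, (f.prod (· ^ ·)).factorization = f := fun f hf =>
    Nat.prod_pow_factorization_eq_self (hSp f hf)
  refine ⟨S.image fun f => f.prod (· ^ ·), ?_, ?_⟩
  · rw [card_image_of_injOn, hScard]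
    intro f hf f' hf' h
    have h' : f.prod (· ^ ·) = f'.prod (· ^ ·) := h
    rw [← hfact f hf, ← hfact f' hf', h']
  · intro b hb
    obtain ⟨f, hf, rfl⟩ := mem_image.mp hb
    obtain ⟨g, hg, hfg⟩ := mem_biUnion.mp hf
    have hsup := hfs g hg f hfg
    have hfac := hfact f hf
    have hpf : (f.prod (· ^ ·)).primeFactors = univ.biUnion g := by
      rw [← Nat.support_factorization, hfac, hsup]
    refine ⟨?_, g, fun j => (hGm g hg j).1, fun j => (hGm g hg j).2, hpf, hcardU g hg, ?_, ?_⟩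
    · rw [Finsupp.prod]
      exact Finset.prod_ne_zero_iff.mpr fun p hp => pow_ne_zero _ (hSp f hf p hp).ne_zero
    · change rad (f.prod (· ^ ·)) = _
      unfold rad
      rw [hpf, prod_biUnion]
      intro i _ j _ hij
      exact hpd g hg (Set.mem_univ _) (Set.mem_univ _) hij
    · intro p hp
      change p ∈ (f.prod (· ^ ·)).primeFactors at hp
      rw [hpf] at hp
      change E ≤ (f.prod (· ^ ·)).factorization p ∧ (f.prod (· ^ ·)).factorization p ≤ 2 * E
      rw [hfac]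
      exact mem_Icc.mp ((mem_finsupp_iff.mp hfg).2 p hp)

theorem choose_bound (N m : ℕ) (x y : ℝ) (hx : 0 ≤ x) (hy : 0 ≤ y) (hmN : m ≤ N) (hm : 1 ≤ m)
    (h : x * m ≤ ((N : ℝ) - m) * y) : x ^ m ≤ (N.choose m : ℝ) * y ^ m := by
  have hm0 : (0 : ℝ) < m := by exact_mod_cast hm
  have h1 : ((N + 1 - m : ℕ) : ℝ) ^ m ≤ (m.factorial : ℝ) * (N.choose m : ℝ) := by
    have h0 : ((N + 1 - m : ℕ) : ℝ) ^ m / (m.factorial : ℝ) ≤ (N.choose m : ℝ) := Nat.pow_le_choose m N
    have h00 : (0 : ℝ) < (m.factorial : ℝ) := by exact_mod_cast m.factorial_pos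
    rw [div_le_iff₀ h00] at h0
    linarith
  have h2 : (m.factorial : ℝ) ≤ (m : ℝ) ^ m := by exact_mod_cast Nat.factorial_le_pow m
  have h3 : (N : ℝ) - m ≤ ((N + 1 - m : ℕ) : ℝ) := by
    rw [Nat.cast_sub (by omega)]; push_cast; linarith
  have h4 : (x * m) ^ m ≤ (((N + 1 - m : ℕ) : ℝ) * y) ^ m := by
    refine pow_le_pow_left₀ (mul_nonneg hx hm0.le) (h.trans ?_) m
    exact mul_le_mul_of_nonneg_right h3 hy
  rw [mul_pow, mul_pow] at h4
  have hc0 : (0 : ℝ) ≤ (N.choose m : ℝ) := Nat.cast_nonneg _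
  have h5 : x ^ m * (m : ℝ) ^ m ≤ ((N.choose m : ℝ) * y ^ m) * (m : ℝ) ^ m := by
    calc x ^ m * (m : ℝ) ^ m ≤ ((N + 1 - m : ℕ) : ℝ) ^ m * y ^ m := h4
      _ ≤ ((m.factorial : ℝ) * (N.choose m : ℝ)) * y ^ m :=
          mul_le_mul_of_nonneg_right h1 (pow_nonneg hy m)
      _ ≤ ((m : ℝ) ^ m * (N.choose m : ℝ)) * y ^ m :=
          mul_le_mul_of_nonneg_right (mul_le_mul_of_nonneg_right h2 hc0) (pow_nonneg hy m)
      _ = ((N.choose m : ℝ) * y ^ m) * (m : ℝ) ^ m := by ring
  exact le_of_mul_le_mul_right h5 (pow_pos hm0 m)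

theorem t_FAM : S_CHEB → S_FAM := by
  classical
  rintro ⟨c0, hc0, j₀, hj₀, H0⟩
  obtain ⟨c, hc, hc1, H⟩ : ∃ c : ℝ, 0 < c ∧ c ≤ 1 ∧ ∀ j : ℕ, j₀ ≤ j →
      c * Real.exp j / j ≤ ((PJ j).card : ℝ) := by
    refine ⟨min c0 1, lt_min hc0 one_pos, min_le_right _ _, fun j hj => le_trans ?_ (H0 j hj)⟩
    gcongr
    exact min_le_left _ _
  obtain ⟨d, hd, hdc⟩ : ∃ d : ℝ, 0 < d ∧ 48 * d = c := ⟨c / 48, by positivity, by ring⟩
  have hd1 : 48 * d ≤ 1 := by rw [hdc]; exact hc1
  refine ⟨d / 2, by positivity, max j₀ ⌈12 / d⌉₊, le_max_of_le_left hj₀, fun l hl => ?_⟩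
  have hlj : j₀ ≤ l := (le_max_left _ _).trans hl
  have hL : 12 / d ≤ (l : ℝ) := (Nat.le_ceil _).trans (by exact_mod_cast (le_max_right _ _).trans hl)
  set L : ℝ := (l : ℝ) with hLdef
  have hL' : 12 ≤ L * d := by rwa [div_le_iff₀ hd] at hL
  have hL1 : 1 ≤ L := by
    by_contra h
    push Not at h
    nlinarith
  have hL0 : 0 < L := by linarith
  set X : ℝ := Real.exp L with hX
  have hX0 : 0 < X := Real.exp_pos _
  have hX1 : L ≤ X := by
    have := Real.add_one_le_exp L
    linarith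
  have hX3 : L ^ 3 / 6 ≤ X := by
    have := Real.pow_div_factorial_le_exp L hL0.le 3
    simpa [Nat.factorial] using this
  have hX2 : 2 * L ^ 2 ≤ d * X := by
    have h1 : d * (L ^ 3 / 6) ≤ d * X := mul_le_mul_of_nonneg_left hX3 hd.le
    have h2 : 12 * L ^ 2 ≤ (L * d) * L ^ 2 := mul_le_mul_of_nonneg_right hL' (by positivity)
    nlinarith
  -- m
  set m : ℕ := ⌊d * X / L ^ 2⌋₊ with hm
  have hm1 : (m : ℝ) ≤ d * X / L ^ 2 := Nat.floor_le (by positivity)
  have hm2 : d * X / L ^ 2 < m + 1 := Nat.lt_floor_add_one _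
  have hm3 : 2 ≤ d * X / L ^ 2 := by rw [le_div_iff₀ (by positivity)]; exact hX2
  have hm4 : 1 ≤ m := by
    have : (1 : ℝ) < m + 1 := by linarith
    have : (0 : ℝ) < m := by linarith
    exact_mod_cast this
  have hm5 : d * X / L ^ 2 / 2 ≤ m := by linarith
  -- E
  set E : ℕ := ⌊X / (4 * d * L)⌋₊ with hE
  have hE1 : (E : ℝ) ≤ X / (4 * d * L) := Nat.floor_le (by positivity)
  have hE2 : X / (4 * d * L) < E + 1 := Nat.lt_floor_add_one _
  have hE8 : 8 ≤ E := by
    refine Nat.le_floor ?_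
    rw [le_div_iff₀ (by positivity)]
    push_cast
    have : 32 * d * L ≤ 1 * L := mul_le_mul_of_nonneg_right (by linarith) hL0.le
    linarith
  obtain ⟨B, hBc, hB⟩ := comb l m E (by omega) (fun j : Fin l => PJ (l + 1 + j))
    (fun j p hp => (mem_PJ hp).1) (fun i j hij => by
      rcases lt_or_gt_of_ne (fun h => hij (Fin.ext h) : (i : ℕ) ≠ j) with h | h
      · exact PJ_disj (by omega)
      · exact (PJ_disj (by omega)).symm)
  have hJ2 : ∀ j : Fin l, ((l + 1 + (j : ℕ) : ℕ) : ℝ) ≤ 2 * L := by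
    intro j
    have : l + 1 + (j : ℕ) ≤ 2 * l := by have := j.2; omega
    have h : ((l + 1 + (j : ℕ) : ℕ) : ℝ) ≤ ((2 * l : ℕ) : ℝ) := by exact_mod_cast this
    push_cast at h ⊢
    linarith
  refine ⟨B, l * m, ∏ j : Fin l, Real.exp ((l + 1 + (j : ℕ) : ℕ) : ℝ) ^ m, ?_, ?_, ?_, ?_, ?_⟩
  · push_cast
    rw [div_le_iff₀ hL0]
    have h1 : d * X / L ^ 2 / 2 * L ^ 2 ≤ m * L ^ 2 := mul_le_mul_of_nonneg_right hm5 (by positivity)
    have h2 : d * X / L ^ 2 / 2 * L ^ 2 = d / 2 * X := by field_simp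
    rw [h2] at h1
    calc d / 2 * X ≤ m * L ^ 2 := h1
      _ = L * m * L := by ring
  · push_cast
    have h1 : L * m ≤ L * (d * X / L ^ 2) := mul_le_mul_of_nonneg_left hm1 hL0.le
    have h2 : L * (d * X / L ^ 2) = d * X / L := by field_simp
    have h3 : d * X / L ≤ d * X := div_le_self (by positivity) hL1
    have h4 : d * X ≤ 1 / 48 * X := mul_le_mul_of_nonneg_right (by linarith) hX0.le
    linarith
  · have : ∏ _j : Fin l, (1 : ℝ) ≤ ∏ j : Fin l, Real.exp ((l + 1 + (j : ℕ) : ℕ) : ℝ) ^ m :=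
      Finset.prod_le_prod (fun _ _ => zero_le_one) fun j _ =>
        one_le_pow₀ (Real.one_le_exp (Nat.cast_nonneg _))
    simpa using this
  · rw [hBc]
    push_cast
    have e1 : Real.exp (L * m) = ∏ _j : Fin l, Real.exp 1 ^ m := by
      rw [Finset.prod_const, Finset.card_univ, Fintype.card_fin, ← Real.exp_nat_mul,
        ← Real.exp_nat_mul]
      congr 1
      rw [hLdef]
      ring
    have e2 : ((E : ℝ) + 1) ^ (l * m) = ∏ _j : Fin l, ((E : ℝ) + 1) ^ m := by
      rw [Finset.prod_const, Finset.card_univ, Fintype.card_fin, ← pow_mul, mul_comm l m]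
    rw [e1, e2, ← Finset.prod_mul_distrib, ← Finset.prod_mul_distrib]
    refine Finset.prod_le_prod (fun j _ => by positivity) fun j _ => ?_
    rw [← mul_pow]
    set J : ℝ := (l : ℝ) + 1 + ((j : ℕ) : ℝ) with hJ
    have hJn : ((l + 1 + (j : ℕ) : ℕ) : ℝ) = J := by push_cast; rfl
    have hJ2' : J ≤ 2 * L := by rw [← hJn]; exact hJ2 j
    have hJL : L ≤ J := by
      have : (0 : ℝ) ≤ ((j : ℕ) : ℝ) := Nat.cast_nonneg _
      rw [hJ]; linarith
    have hJ0 : 0 < J := by linarith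
    have hXJ : X ≤ Real.exp J := Real.exp_le_exp.mpr hJL
    have hpi : c * Real.exp J / (2 * L) ≤ ((PJ (l + 1 + j)).card : ℝ) := by
      have h1 := H (l + 1 + j) (by omega)
      rw [hJn] at h1
      refine le_trans ?_ h1
      exact div_le_div_of_nonneg_left (by positivity) hJ0 hJ2'
    have hmle : (m : ℝ) ≤ c * Real.exp J / (4 * L) := by
      refine hm1.trans ?_
      rw [div_le_div_iff₀ (by positivity) (by positivity)]
      have h1 : d * X * (4 * L) ≤ c * Real.exp J * L := by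
        have h2 : d * X * (4 * L) = (4 * d) * (X * L) := by ring
        have h3 : c * Real.exp J * L = c * (Real.exp J * L) := by ring
        rw [h2, h3]
        exact mul_le_mul (by linarith) (mul_le_mul_of_nonneg_right hXJ hL0.le) (by positivity)
          hc.le
      refine h1.trans ?_
      exact mul_le_mul_of_nonneg_left (by nlinarith) (by positivity)
    have hsub : c * Real.exp J / (4 * L) ≤ ((PJ (l + 1 + j)).card : ℝ) - m := by
      have : c * Real.exp J / (2 * L) = c * Real.exp J / (4 * L) + c * Real.exp J / (4 * L) := by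
        field_simp; ring
      linarith
    refine choose_bound _ m _ _ (by positivity) (by positivity) ?_ hm4 ?_
    · have : (m : ℝ) ≤ ((PJ (l + 1 + j)).card : ℝ) := by
        have : 0 ≤ c * Real.exp J / (4 * L) := by positivity
        linarith
      exact_mod_cast this
    · have h1 : c * Real.exp J / (4 * L) * (X / (4 * d * L)) ≤
          (((PJ (l + 1 + j)).card : ℝ) - m) * ((E : ℝ) + 1) :=
        mul_le_mul hsub hE2.le (by positivity) (le_trans (by positivity) hsub)
      refine le_trans ?_ h1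
      have he : Real.exp 1 ≤ 3 := by
        have := Real.exp_one_lt_d9
        linarith
      have h2 : Real.exp J * Real.exp 1 * m ≤ Real.exp J * 3 * (d * X / L ^ 2) := by
        gcongr
      refine h2.trans ?_
      have h3 : c * Real.exp J / (4 * L) * (X / (4 * d * L)) =
          Real.exp J * 3 * (1 * X / L ^ 2) := by
        rw [← hdc]
        field_simp
        norm_num
      rw [h3]
      gcongr
      linarith
  · intro b hb
    obtain ⟨hb0, g, hgA, hgm, hpf, hcU, hrad, hfac⟩ := hB b hb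
    have hpm : ∀ p ∈ b.primeFactors, ∃ j : Fin l, p ∈ g j := by
      intro p hp
      rw [hpf] at hp
      obtain ⟨j, -, hj⟩ := mem_biUnion.mp hp
      exact ⟨j, hj⟩
    have hpu : ∀ p ∈ b.primeFactors, (p : ℝ) ≤ X ^ 2 := by
      intro p hp
      obtain ⟨j, hj⟩ := hpm p hp
      obtain ⟨-, -, h1⟩ := mem_PJ (hgA j hj)
      refine h1.trans ?_
      rw [hX, ← Real.exp_nat_mul]
      refine Real.exp_le_exp.mpr ?_
      have := hJ2 j
      push_cast at this ⊢
      linarith
    refine ⟨Nat.pos_of_ne_zero hb0, ?_, ?_, ?_, ?_⟩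
    · rw [hpf, hcU]
    · intro p hp
      refine ⟨?_, hE8.trans (hfac p hp).1⟩
      obtain ⟨j, hj⟩ := hpm p hp
      obtain ⟨-, h1, -⟩ := mem_PJ (hgA j hj)
      refine lt_of_le_of_lt (Real.exp_le_exp.mpr ?_) h1
      push_cast
      have : (0 : ℝ) ≤ ((j : ℕ) : ℝ) := Nat.cast_nonneg _
      linarith
    · rw [hrad]
      push_cast
      refine Finset.prod_le_prod (fun j _ => Finset.prod_nonneg fun p _ => Nat.cast_nonneg _)
        fun j _ => ?_
      have h1 : ∏ p ∈ g j, (p : ℝ) ≤ ∏ _p ∈ g j, Real.exp ((l : ℝ) + 1 + ((j : ℕ) : ℝ)) := by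
        refine Finset.prod_le_prod (fun p _ => Nat.cast_nonneg _) fun p hp => ?_
        obtain ⟨-, -, h2⟩ := mem_PJ (hgA j hp)
        push_cast at h2
        exact h2
      rwa [Finset.prod_const, hgm j] at h1
    · have hX21 : 1 ≤ X ^ 2 := one_le_pow₀ (Real.one_le_exp hL0.le)
      have h1 : (b : ℝ) = ∏ p ∈ b.primeFactors, (p : ℝ) ^ b.factorization p := by
        conv_lhs => rw [← Nat.prod_factorization_pow_eq_self hb0]
        rw [Finsupp.prod, Nat.support_factorization]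
        push_cast
        rfl
      have h2 : (b : ℝ) ≤ ∏ _p ∈ b.primeFactors, (X ^ 2) ^ (2 * E) := by
        rw [h1]
        refine Finset.prod_le_prod (fun p _ => by positivity) fun p hp => ?_
        calc (p : ℝ) ^ b.factorization p ≤ (X ^ 2) ^ b.factorization p :=
              pow_le_pow_left₀ (Nat.cast_nonneg _) (hpu p hp) _
          _ ≤ (X ^ 2) ^ (2 * E) := pow_le_pow_right₀ hX21 (hfac p hp).2
      rw [Finset.prod_const, hpf, hcU, ← pow_mul, ← pow_mul, hX, ← Real.exp_nat_mul] at h2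
      refine h2.trans (Real.exp_le_exp.mpr ?_)
      have h3 : Real.exp (2 * L) = X ^ 2 := by
        rw [hX, ← Real.exp_nat_mul]
        push_cast
        rfl
      rw [h3]
      push_cast
      have h4 : (E : ℝ) * m ≤ X / (4 * d * L) * (d * X / L ^ 2) :=
        mul_le_mul hE1 hm1 (Nat.cast_nonneg _) (by positivity)
      have h5 : X / (4 * d * L) * (d * X / L ^ 2) = X ^ 2 / (4 * L ^ 3) := by
        field_simp
      rw [h5] at h4
      have h6 : 2 * (2 * (E : ℝ)) * (L * m) * L = 4 * L ^ 2 * ((E : ℝ) * m) := by ring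
      have h7 : 4 * L ^ 2 * ((E : ℝ) * m) ≤ 4 * L ^ 2 * (X ^ 2 / (4 * L ^ 3)) :=
        mul_le_mul_of_nonneg_left h4 (by positivity)
      have h8 : 4 * L ^ 2 * (X ^ 2 / (4 * L ^ 3)) = X ^ 2 / L := by field_simp
      linarith

end Pool.Agent.D0H81.AB
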